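import Pool.Agent.Helper49.LC.St

/-! Module DAT of project LC: the data of the swindle. -/

set_option autoImplicit false

namespace Pool.Agent.Helper80.LC

open Pool.Agent.Helper14.LK Pool.Agent.Helper49.LC

private lemma kn_sum (hKNB : StKNB) {n : ℕ} {α β : EE n → WW n} {R q : ℝ} {a : EE n}
    (hα : Kn α 0 R) (hβ : Kn β 0 R) (hq : 0 < q) (hq1 : q ≤ 1) (ha : R + q * R < ‖a‖) :
    Kn (su α (pc a q β)) ((1 / 2 : ℝ) • a) (‖a‖ / 2 + R) := by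
  have hR : 0 < R := hα.pos
  have h1 := hKNB.2.1 n β 0 a q R hβ hq
  rw [smul_zero, add_zero] at h1
  have hn : ‖(1 / 2 : ℝ) • a‖ = ‖a‖ / 2 := by
    rw [norm_smul, Real.norm_eq_abs, abs_of_pos (by norm_num : (0 : ℝ) < 1 / 2)]
    ring
  refine hKNB.2.2.2.1 n α (pc a q β) 0 a ((1 / 2 : ℝ) • a) R (q * R) (‖a‖ / 2 + R) hα h1 ?_ ?_ ?_
  · rw [zero_sub, norm_neg]
    exact ha
  · rw [zero_sub, norm_neg, hn]
  · have h2 : a - (1 / 2 : ℝ) • a = (1 / 2 : ℝ) • a := by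
      rw [sub_eq_iff_eq_add, ← add_smul]
      norm_num
    rw [h2, hn]
    have h3 : q * R ≤ 1 * R := mul_le_mul_of_nonneg_right hq1 hR.le
    linarith

theorem hDAT (hCOM : StCOM) (hLOC : StLOC) (hKNB : StKNB) : StDAT := by
  intro n hn α β R hα hβ ⟨a₀, ha₀, hEq⟩ q hq hq1
  have hR : 0 < R := hα.pos
  obtain ⟨a, ha⟩ : ∃ a : EE n, 4 * R / q < ‖a‖ := by
    refine ⟨(4 * R / q + 1) • EuclideanSpace.single (⟨0, by omega⟩ : Fin n) (1 : ℝ), ?_⟩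
    have h0 : 0 < 4 * R / q := by positivity
    rw [norm_smul, Real.norm_eq_abs, abs_of_pos (by linarith)]
    simp
  have h4 : 4 * R ≤ 4 * R / q := by
    rw [le_div_iff₀ hq]
    nlinarith
  have hqR : q * R ≤ 1 * R := mul_le_mul_of_nonneg_right hq1 hR.le
  have haq : R + q * R < ‖a‖ := by linarith
  obtain ⟨h1, h2⟩ := hCOM n hn α β R R hα hβ a₀ 1 one_pos (by linarith) hEq a q hq
  have hr : ‖a‖ / 2 + R < ‖a‖ / 2 + 2 * R := by linarith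
  obtain ⟨f, f', hf, hf'⟩ := hLOC n hn _ _ _ (kn_sum hKNB hα hβ hq hq1 haq) (h1 haq) _ hr
  obtain ⟨g, g', hg, hg'⟩ := hLOC n hn _ _ _ (kn_sum hKNB hβ hα hq hq1 haq) (h2 haq) _ hr
  exact ⟨a, f, f', g, g', ha, hf, hf', hg, hg'⟩

end Pool.Agent.Helper80.LC
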